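import Pool.Agent.Helper13.JS.St
import Pool.Agent.Helper19.JS.M_FK
import Pool.Agent.Helper26.JS.M_EK
import Pool.Agent.Helper98.JS.M_FS

/-!
# Project JS (MP_924f75_nt): the final form (one thin scale `w`, bounded mass above `w`)
-/

set_option autoImplicit false

namespace Pool.Agent.Helper13.JS

open Finset ArithmeticFunction
open Pool.Agent.Helper13.JC (Cov E1 offSum)

/-- the final form: one thin scale `w`, bounded mass between `w` and `x ^ κ` -/
def Fo3 (κ η : ℝ) : Prop := ∀ K : ℝ, ∃ ε : ℝ, 0 < ε ∧ ∀ κ' : ℝ, 0 < κ' → ∃ C x₀ : ℝ, 0 < C ∧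
  ∀ (x y : ℕ) (a : ℕ → ℤ) (b : ℕ) (w : ℝ), x₀ ≤ x → Cov x y a → b ≤ y → (x : ℝ) ^ κ' ≤ w →
    w ≤ (x : ℝ) ^ κ → onSum a b (w ^ η) w ≤ ε → onSum a b w ((x : ℝ) ^ κ) ≤ K →
    (y : ℝ) ≤ x * Real.exp (C * (1 + offSum a b ((x : ℝ) ^ κ) x * Real.log x))

/-- the mass of the ON primes above `w` -/
theorem ms_above (κ C' K : ℝ) (x : ℕ) (a₀ : ℕ → ℤ) (w : ℝ)
    (h2 : ∑ p ∈ (Icc 1 x).filter (fun p : ℕ => p.Prime ∧ (x : ℝ) ^ κ < (p : ℝ)),
      1 / (p : ℝ) ≤ C')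
    (h1 : ms (On x a₀) w ((x : ℝ) ^ κ) ≤ K) (N : ℕ) : ms (On x a₀) w (N : ℝ) ≤ K + C' := by
  classical
  have h3 : ms (On x a₀) w (N : ℝ) ≤ ms (On x a₀) w ((x : ℝ) ^ κ) +
      ∑ p ∈ (Icc 1 x).filter (fun p : ℕ => p.Prime ∧ (x : ℝ) ^ κ < (p : ℝ)), 1 / (p : ℝ) := by
    unfold ms
    rw [← Finset.sum_filter_add_sum_filter_not
      ((On x a₀).filter (fun p : ℕ => w < (p : ℝ) ∧ (p : ℝ) ≤ (N : ℝ)))
      (fun p : ℕ => (p : ℝ) ≤ (x : ℝ) ^ κ)]
    apply add_le_add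
    · apply Finset.sum_le_sum_of_subset_of_nonneg
      · intro p hp
        simp only [mem_filter] at hp ⊢
        exact ⟨hp.1.1, hp.1.2.1, hp.2⟩
      · intro p _ _
        positivity
    · apply Finset.sum_le_sum_of_subset_of_nonneg
      · intro p hp
        unfold On at hp
        simp only [mem_filter, mem_Icc, not_le] at hp ⊢
        exact ⟨hp.1.1.1, hp.1.1.2.1, hp.2⟩
      · intro p _ _
        positivity
  linarith

/-- density from one thin scale `w` and bounded mass above `w` -/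
theorem dens_above (η ε₀ Kp : ℝ) (hη : 0 < η) (hη1 : η ≤ 1 / 20) (I : ℕ)
    (hI : Kp < (I : ℝ) * ε₀) (E : Finset ℕ) (N : ℕ) (hN : 1 ≤ N) (w : ℝ)
    (hK : ms E w N ≤ Kp) (hK0 : 0 ≤ Kp) (hwN : w ≤ N) (hw : ms E (w ^ η) w ≤ ε₀) :
    ∃ v : ℝ, (N : ℝ) ^ (η ^ I) ≤ v ∧ v ≤ N ∧ ms E (v ^ η) v ≤ ε₀ := by
  have hNr : (1 : ℝ) ≤ (N : ℝ) := by exact_mod_cast hN
  have hη1' : η ≤ 1 := by linarith
  rcases le_or_gt w ((N : ℝ) ^ (η ^ I)) with hcase | hcase
  · set u : ℕ → ℝ := fun i => (N : ℝ) ^ (η ^ i) with hu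
    have hu_dec : ∀ i, u (i + 1) ≤ u i := by
      intro i
      apply Real.rpow_le_rpow_of_exponent_le hNr
      exact pow_le_pow_of_le_one hη.le hη1' (Nat.le_succ i)
    have hu0 : u 0 = (N : ℝ) := by simp [hu]
    have hu_le : ∀ n, u n ≤ u 0 := by
      intro n
      induction n with
      | zero => exact le_rfl
      | succ n ih => exact (hu_dec n).trans ih
    have hsum := Pool.Agent.Helper26.JS.ms_sum E u hu_dec I
    have hle : ms E (u I) (u 0) ≤ ms E w N := by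
      have h1 := Pool.Agent.Helper26.JS.ms_add E w (u I) (u 0) hcase (hu_le I)
      have h2 := Pool.Agent.Helper26.JS.ms_nonneg E w (u I)
      rw [hu0] at h1 ⊢
      linarith
    have hIpos : 0 < I := by
      rcases Nat.eq_zero_or_pos I with h | h
      · rw [h] at hI
        simp only [Nat.cast_zero, zero_mul] at hI
        linarith
      · exact h
    have hexists : ∃ i ∈ Finset.range I, ms E (u (i + 1)) (u i) ≤ ε₀ := by
      by_contra hcon
      push Not at hcon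
      have h1 : ∑ i ∈ Finset.range I, ε₀ < ∑ i ∈ Finset.range I, ms E (u (i + 1)) (u i) :=
        Finset.sum_lt_sum_of_nonempty ⟨0, Finset.mem_range.mpr hIpos⟩ hcon
      rw [Finset.sum_const, Finset.card_range, nsmul_eq_mul] at h1
      linarith
    obtain ⟨i, hiI, hi⟩ := hexists
    have hiI' : i < I := Finset.mem_range.mp hiI
    refine ⟨u i, ?_, ?_, ?_⟩
    · exact Real.rpow_le_rpow_of_exponent_le hNr (pow_le_pow_of_le_one hη.le hη1' hiI'.le)
    · rw [← hu0]; exact hu_le i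
    · have h2 : u i ^ η = u (i + 1) := by
        show ((N : ℝ) ^ (η ^ i)) ^ η = (N : ℝ) ^ (η ^ (i + 1))
        rw [← Real.rpow_mul (by positivity), pow_succ]
      rw [h2]; exact hi
  · exact ⟨w, hcase.le, hwN, hw⟩

theorem hFU (hEF : StEF) :
    ∃ η : ℝ, 0 < η ∧ η < 1 ∧ ∀ κ : ℝ, 0 < κ → κ ≤ 1 / 4 → CGk κ → Fo3 κ η := by
  obtain ⟨η, ε₀, hη, hη1, hε₀, hE⟩ := hEF
  refine ⟨η, hη, by linarith, ?_⟩
  intro κ hκ hκ1 hCG K
  obtain ⟨C', hC', hPW⟩ := Pool.Agent.Helper19.JS.primes_window κ hκ (by linarith)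
  set Kp : ℝ := max K 1 + C' with hKp
  have hKp0 : 0 ≤ Kp := by
    have : (1 : ℝ) ≤ max K 1 := le_max_right _ _
    linarith
  obtain ⟨I, hI⟩ := exists_nat_gt (Kp / ε₀)
  have hI2 : Kp < (I : ℝ) * ε₀ := by rwa [div_lt_iff₀ hε₀] at hI
  obtain ⟨c, N₀, hc, hN₀, hEc⟩ := hE (η ^ I) (by positivity)
    (pow_le_one₀ hη.le (by linarith))
  obtain ⟨ε', hε', hCε⟩ := hCG c hc
  refine ⟨min ε₀ ε', lt_min hε₀ hε', ?_⟩
  intro κ' hκ'
  rcases lt_or_ge κ κ' with hlt | hle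
  · refine ⟨1, 2, one_pos, ?_⟩
    intro x y a b w hx _ _ h1 h2 _ _
    exfalso
    have hx1 : (1 : ℝ) < x := by linarith
    have h3 : (x : ℝ) ^ κ < (x : ℝ) ^ κ' := Real.rpow_lt_rpow_of_exponent_lt hx1 hlt
    linarith
  · obtain ⟨C, x₀, hC, hx₀, hCx⟩ := hCε (η * κ') (by positivity) (by nlinarith)
    refine ⟨C, max x₀ (max (N₀ ^ 4) ((2 : ℝ) ^ (2 / κ))), hC, ?_⟩
    intro x y a b w hx hcov hby hw1 hw2 hon hon2
    have hxx₀ : x₀ ≤ x := le_trans (le_max_left _ _) hx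
    have hxN : N₀ ^ 4 ≤ (x : ℝ) :=
      le_trans (le_trans (le_max_left _ _) (le_max_right _ _)) hx
    have hx2 : (2 : ℝ) ^ (2 / κ) ≤ x := le_trans (le_trans (le_max_right _ _) (le_max_right _ _)) hx
    have hx1' : (1 : ℝ) < x := by linarith
    have hx1 : (1 : ℝ) ≤ x := hx1'.le
    have hx0 : (0 : ℝ) ≤ x := by linarith
    have hw1' : 1 ≤ w := by
      have : (1 : ℝ) ≤ (x : ℝ) ^ κ' := Real.one_le_rpow hx1 hκ'.le
      linarith
    have hw0 : 0 ≤ w := by linarith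
    have hk4 : (x : ℝ) ^ κ ≤ (x : ℝ) ^ (1 / 4 : ℝ) :=
      Real.rpow_le_rpow_of_exponent_le hx1 hκ1
    have hw4 : w ≤ (x : ℝ) ^ (1 / 4 : ℝ) := le_trans hw2 hk4
    have h41 : (x : ℝ) ^ (1 / 4 : ℝ) ≤ x := by
      have : (x : ℝ) ^ (1 / 4 : ℝ) ≤ (x : ℝ) ^ (1 : ℝ) :=
        Real.rpow_le_rpow_of_exponent_le hx1 (by norm_num)
      rw [Real.rpow_one] at this
      exact this
    have hwx : w ≤ x := le_trans hw4 h41
    have hkx : (x : ℝ) ^ κ ≤ x := le_trans hk4 h41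
    set a₀ : ℕ → ℤ := fun p => a p - b with ha₀
    have hms : ms (On x a₀) (w ^ η) w = onSum a b (w ^ η) w :=
      Pool.Agent.Helper98.JS.FS_ms_on x a b (w ^ η) w hwx hw0
    have hms0 : ms (On x a₀) (w ^ η) w ≤ ε₀ := by
      rw [hms]
      exact le_trans hon (min_le_left _ _)
    have hms1 : ms (On x a₀) (w ^ η) w ≤ ε' := by
      rw [hms]
      exact le_trans hon (min_le_right _ _)
    have hmsK : ms (On x a₀) w ((x : ℝ) ^ κ) ≤ K := by
      rw [Pool.Agent.Helper98.JS.FS_ms_on x a b w ((x : ℝ) ^ κ) hkx (by positivity)]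
      exact hon2
    have hprime : ∀ p ∈ On x a₀, p.Prime := by
      intro p hp
      unfold On at hp
      rw [Finset.mem_filter] at hp
      exact hp.2.1
    have hN4 : N₀ ≤ (x : ℝ) ^ (1 / 4 : ℝ) := by
      have h0 : (0 : ℝ) ≤ N₀ := by linarith
      have h1 : N₀ = (N₀ ^ 4) ^ (1 / 4 : ℝ) := by
        rw [← Real.rpow_natCast, ← Real.rpow_mul h0]
        norm_num
      rw [h1]
      exact Real.rpow_le_rpow (by positivity) hxN (by norm_num)
    have hDens : Dens x a₀ c := by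
      intro N hN1 hN2
      have hNN : N₀ ≤ N := le_trans hN4 hN1
      have hN : 1 ≤ N := by
        have h2 : (1 : ℝ) ≤ N := by linarith
        exact_mod_cast h2
      have hK1 : ms (On x a₀) w N ≤ Kp := by
        have h1 := ms_above κ C' K x a₀ w (hPW x hx2) hmsK N
        have h2 : K ≤ max K 1 := le_max_left _ _
        linarith
      obtain ⟨v, hv1, hv2, hv3⟩ := dens_above η ε₀ Kp hη hη1 I hI2 (On x a₀) N hN w hK1 hKp0
        (le_trans hw4 hN1) hms0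
      exact hEc _ N v hprime hNN hv1 hv2 hv3
    refine hCx x y a b (w ^ η) hxx₀ hcov hby ?_ ?_ hDens ?_
    · have h1 : ((x : ℝ) ^ κ') ^ η ≤ w ^ η :=
        Real.rpow_le_rpow (by positivity) hw1 hη.le
      have h2 : ((x : ℝ) ^ κ') ^ η = (x : ℝ) ^ (η * κ') := by
        rw [← Real.rpow_mul hx0]
        congr 1
        ring
      rw [h2] at h1
      exact h1
    · have h1 : w ^ η ≤ w ^ (1 : ℝ) :=
        Real.rpow_le_rpow_of_exponent_le hw1' (by linarith)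
      rw [Real.rpow_one] at h1
      exact le_trans h1 hw4
    · have h1 : (w ^ η) ^ 2 ≤ w := by
        have h2 : (w ^ η) ^ 2 = w ^ (η * 2) := by
          rw [Real.rpow_mul hw0]
          norm_cast
        rw [h2]
        have h3 : w ^ (η * 2) ≤ w ^ (1 : ℝ) :=
          Real.rpow_le_rpow_of_exponent_le hw1' (by linarith)
        rw [Real.rpow_one] at h3
        exact h3
      exact le_trans (Pool.Agent.Helper98.JS.FS_ms_mono _ _ _ _ h1) hms1

end Pool.Agent.Helper13.JS
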