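import Pool.Agent.Helper13.JC.C3
import Pool.Agent.Helper15.AB.StBV
import Pool.Agent.Helper60.GP.St
import Pool.Agent.Helper18.TR.Final

/-!
# Project JS (helper13), MP_924f75_nt: coverings without a common class at one scale

THEOREM. There is an absolute `c > 0` such that for every `K` there is `C` with: every covering of `[1,y]` by
one class `a p` for each prime `p ≤ x` satisfies, for every integer `0 ≤ b ≤ y` for which the sum of `1/p`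
over the primes `p ≤ x ^ c` with `a p ≡ b` is at most `K`,
`y ≤ x exp (C (1 + S log x))`, `S` = sum of `1/p` over `x ^ c < p ≤ x` with `a p ≢ b`.
Second form: the same if for ONE `w` between `x ^ κ'` and `x ^ c` the sum of `1/p` over `w ^ η < p ≤ w`,
`a p ≡ b`, is at most `ε(κ')`.
(The landed theorem `CommonClass` needs on the contrary that most small primes HAVE `b` in their class.)

IDEA (centre `b = 0`). `E` = the primes `p ≤ x` with `p ∣ a p` (ON primes), the others are OFF. The integers without prime factor in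
`E` have positive density `c₁ ∏_E (1 - 1/p)` (modules EL EU EB ER EF EK). Write `N = m q` with `m` free of `E` and
`q` a prime of medium size. By a bilinear Bombieri-Vinogradov theorem (B1-B5) such `N` are equidistributed in
residue classes, so the lower bound sieve (SL) gives `≥ c y / log x` of them outside all classes `a s`, `s ≤ x ^ κ`. Those
with `q ∈ E` are few by an upper bound sieve, because `E` has small mass at the scale of `q`. These survivors have to be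
covered by the OFF primes `p > x ^ κ`, each of which covers at most `C y / (p log (y/x))` of them.

HOUSE RULES. Module XX: `theorem hXX (the hypotheses named in the docstring, in that order) : StXX` in the file
`Pool/Agent/Helper<you>/JS/M_XX.lean`, namespace `Pool.Agent.Helper<you>.JS`, import `Pool.Agent.Helper13.JS.St`.
-/

set_option autoImplicit false

noncomputable section

namespace Pool.Agent.Helper13.JS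

open Finset ArithmeticFunction
open Pool.Agent.Helper15.AB (IsW Th SP SN)
open Pool.Agent.Helper60.GP (II)
open Pool.Agent.Helper13.JC (Cov E1 offSum)

/-! ### Integers without prime factors in `E` -/

open Classical in
/-- number of `n ≤ N` without divisor in `E` -/
def Fr (E : Finset ℕ) (N : ℕ) : ℕ := ((Icc 1 N).filter (fun n => ∀ p ∈ E, ¬ p ∣ n)).card

open Classical in
/-- sum of `1 / n` over the `n ≤ N` without divisor in `E` -/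
def Ls (E : Finset ℕ) (N : ℕ) : ℝ :=
  ∑ n ∈ (Icc 1 N).filter (fun n => ∀ p ∈ E, ¬ p ∣ n), 1 / (n : ℝ)

/-- `∏ (1 - 1/p)` over the `p ∈ E`, `p ≤ N` -/
def PE (E : Finset ℕ) (N : ℕ) : ℝ := ∏ p ∈ E.filter (· ≤ N), (1 - 1 / (p : ℝ))

open Classical in
/-- sum of `1 / p` over the `p ∈ E`, `u < p ≤ v` -/
def ms (E : Finset ℕ) (u v : ℝ) : ℝ :=
  ∑ p ∈ E.filter (fun p : ℕ => u < (p : ℝ) ∧ (p : ℝ) ≤ v), 1 / (p : ℝ)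

/-- MP. Mertens for products (no hypotheses; use `Pool.Agent.Helper13.JC.mert`).

Proof. For a prime `p ≥ 2`: `exp (-1/p - 1/p²) ≤ 1 - 1/p ≤ exp (-1/p)` (`1/p ≤ 1/2`), and `∑ 1/p² ≤ 1`. (1): the quotient
`PE E N / PE E M` is the product over the `p ∈ E`, `M < p ≤ N`, at least `exp (-1 - ∑_(M<p≤N) 1/p)`, and by `mert` for `M` and `N`
`∑_(M<p≤N) 1/p ≤ log (log N / log M) + 2C'`. (2): `≤ exp (-∑_(p≤N) 1/p)`, `mert`. (3): the same as (1) with `M = 2`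
(the prime `2` costs a factor `1/2`); `log 2 ≥ 1/2`. -/
def StMP : Prop := ∃ C : ℝ, 1 ≤ C ∧
  (∀ (E : Finset ℕ) (M N : ℕ), (∀ p ∈ E, p.Prime) → 2 ≤ M → M ≤ N →
    PE E M * (Real.log M / (C * Real.log N)) ≤ PE E N) ∧
  (∀ N : ℕ, 2 ≤ N → ∏ p ∈ (Icc 1 N).filter Nat.Prime, (1 - 1 / (p : ℝ)) ≤ C / Real.log N) ∧
  (∀ (E : Finset ℕ) (N : ℕ), (∀ p ∈ E, p.Prime) → 2 ≤ N → 1 / (C * Real.log N) ≤ PE E N) ∧
  (∀ (E : Finset ℕ) (N : ℕ), (∀ p ∈ E, p.Prime) → 0 < PE E N ∧ PE E N ≤ 1)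

/-- EL. Removing more primes (no hypotheses).

Proof. Induction on `E' \ E`; one step: `E' = insert p E`, `p ∉ E`. The `n ≤ N` free of `E` with `p ∣ n` are `n = p m`, `m ≤ N / p`,
`m` free of `E`, so their sum of `1/n` is at most `(1/p) Ls E N`. Hence `Ls E N - (1/p) Ls E N ≤ Ls E' N`. -/
def StEL : Prop := ∀ (E E' : Finset ℕ) (N : ℕ), (∀ p ∈ E', p.Prime) → E ⊆ E' →
  Ls E N * ∏ p ∈ E' \ E, (1 - 1 / (p : ℝ)) ≤ Ls E' N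

/-- ELU (hMP)(hEL). Two sided bounds.

Proof. Both sides depend on the `p ∈ E`, `p ≤ N` only (replace `E` by `E.filter (· ≤ N)`). Lower bound: EL with `∅ ⊆ E`, and
`Ls ∅ N = ∑_(n≤N) 1/n ≥ log (N+1) ≥ log N`. Upper bound: EL with `E ⊆ E' =` all primes `≤ N`, `Ls E' N = 1` (only `n = 1`):
`Ls E N ≤ 1 / ∏_(p ≤ N, p ∉ E) (1 - 1/p)`. Since `PE E N * ∏_(p≤N, p∉E) (1-1/p) = ∏_(p≤N) (1-1/p)`, we need
`∏_(p≤N) (1-1/p) ≥ 1 / (C log N)`: MP (3) for the set of all primes `≤ N`. -/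
def StELU : Prop := ∃ C : ℝ, 1 ≤ C ∧ ∀ (E : Finset ℕ) (N : ℕ), (∀ p ∈ E, p.Prime) → 2 ≤ N →
  Real.log N * PE E N ≤ Ls E N ∧ Ls E N ≤ C * Real.log N * PE E N

/-- EU (hMP). Upper bound for the number of integers free of `E`.

Proof. `Pool.Agent.Helper18.TR.fl 1 1` gives `B`. Let `w = ⌊N^(1/(2B+2))⌋`. If `w < 2` then `N < 2^(2B+2)` is bounded, `Fr ≤ N`,
and `PE E N ≥ 1/(C log N)` (MP (3); for `N = 1` the product is empty, `N = 0` trivial). If `w ≥ 2`: apply `fl` with `Q = E.filter (· ≤ w)`, `g p = 1/p`,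
`A = Icc 1 N`, events `p ∣ n`, `R = 1` (the number of `n ≤ N` divisible by `d = ∏_T p` is `⌊N/d⌋`; coprime moduli). So
`Fr E N ≤ 2 N PE E w + w^B`, `w^B ≤ N^(1/2)`, `PE E w ≤ PE E N · C log N / log w` (MP (1)) `≤ C' PE E N`
(`log w ≥ log N / (4B+4)`, as `w + 1 > N^(1/(2B+2))` and `w ≥ 2`), and `N^(1/2) ≤ C'' N / log N ≤ C''' N PE E N`. -/
def StEU : Prop := ∃ C : ℝ, 1 ≤ C ∧ ∀ (E : Finset ℕ) (N : ℕ), (∀ p ∈ E, p.Prime) →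
  (Fr E N : ℝ) ≤ C * N * PE E N

/-- PC (hMP). The products at comparable points.

Proof. If `M ≥ w^η`: the primes of `E` in `(M, N]` have mass `≤ 1/2` (`N ≤ w`), so `PE E N ≥ exp (-1) PE E M` (`1 - t ≥ exp (-2t)`, `0 ≤ t ≤ 1/2`). If `M < w^η` let `M' = ⌊w^η⌋`
(`≥ M`, `≤ N`): MP (1) gives `PE E M ≤ PE E M' · C log M' / log M`, and `log M ≥ (η/2) log w - log 2 ≥ (η/3) log w` for `w ≥ w₀(η)`, `log M' ≤ η log w`; so `PE E M ≤ 3C PE E M'`, and the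
first case applies to `M'` up to the integer part (primes `p ≤ N`, `p > M'` satisfy `p > w^η`). -/
def StPC : Prop := ∃ C : ℝ, 1 ≤ C ∧ ∀ η : ℝ, 0 < η → η ≤ 1 / 20 → ∃ w₀ : ℝ, 2 ≤ w₀ ∧
  ∀ (E : Finset ℕ) (w : ℝ) (M N : ℕ), (∀ p ∈ E, p.Prime) → w₀ ≤ w → ms E (w ^ η) w ≤ 1 / 2 →
  w ^ (η / 2) ≤ 2 * M → M ≤ N → w ^ (1 / 2 : ℝ) ≤ N → (N : ℝ) ≤ w → PE E M ≤ C * PE E N

/-- S2 (hELU)(hEU)(hPC)(hM1 : Pool.Agent.Helper60.GP.StM1). The contribution of the primes of `E`. `C` does not depend on `η`.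

Proof. Let `P = PE E N`. In all cases below `PE E (M) ≤ C P` for the relevant `M` by PC. Three parts.
(a) `q ≤ w^η`: `w ≤ N²`, so `q ≤ N^(1/10)` and the natural number `N / q ≥ N^(1/2)` is large; EU: `Fr E (N/q) ≤ C (N/q) PE E (N/q) ≤ C' (N/q) P`; the sum is at most
`C' N P ∑_(q ≤ w^η) (log q)/q ≤ C' N P (η log w + C)` (hM1) `≤ C' N P · 3 η log N` for `w ≥ w₀(η)`.
(b) `q > w^η` and `N / q ≥ N^η - 1` (natural division): `2 (N/q) ≥ w^(η/2)`; EU and PC again: the sum is at most `C' N P ∑_(q∈E, w^η<q≤w) (log q)/q ≤ C' N P log N · ms E (w^η) w`.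
(c) `N / q < N^η - 1`: the sum of `log q` over the pairs `(q, m)`, `m ≤ N/q`, `m` free of `E`; then `m ≤ N^η`, and for each `m` the `q` are primes `≤ N/m`: at most
`∑_(m ≤ N^η, free) θ(N/m) ≤ log 4 · N · Ls E ⌊N^η⌋ ≤ C N (η log N) PE E ⌊N^η⌋ ≤ C' η N log N · P` (`Chebyshev.theta_le_log4_mul_x`, ELU, PC: `2⌊N^η⌋ ≥ N^η ≥ w^(η/2)`). -/
def StS2 : Prop := ∃ C : ℝ, 1 ≤ C ∧ ∀ η : ℝ, 0 < η → η ≤ 1 / 20 → ∃ w₀ : ℝ, 2 ≤ w₀ ∧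
  ∀ (E : Finset ℕ) (w : ℝ) (N : ℕ), (∀ p ∈ E, p.Prime) → w₀ ≤ w → ms E (w ^ η) w ≤ 1 / 2 →
  w ^ (1 / 2 : ℝ) ≤ N → (N : ℝ) ≤ w →
  ∑ q ∈ E.filter (· ≤ N), Real.log q * Fr E (N / q) ≤
    C * N * Real.log N * PE E N * (η + ms E (w ^ η) w)

/-- EB (hELU)(hS2). The base: positive relative density when `E` is thin at the scale `w`.

Proof. Let `P = PE E N`. Sum `log q` over the pairs `(m, q)`, `q` prime, `q ∉ E`, `m` free of `E`, `m q ≤ N`: `n = m q` is free of `E` and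
`∑_(q ∣ n) log q ≤ log n`, so the sum is at most `Fr E N log N`. It equals `Σ₁ - Σ₂`, `Σ₁ = ∑_m θ(N/m)` over the `m ≤ N` free of
`E` and all primes `q ≤ N/m`, `Σ₂ = ∑_(q ∈ E, q ≤ N) log q · Fr E (N/q)`. `θ(t) ≥ c t` for `t ≥ 2` (`Chebyshev.theta_ge` and small cases), so
`Σ₁ ≥ c N · Ls E (N/2) ≥ c N log (N/2) PE E (N/2) ≥ c N log (N/3) P ≥ (c/2) N log N · P` (ELU, large `N`). S2: `Σ₂ ≤ C N log N P (η + ε₀)`. Choose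
`η = min (1/20) (c/(8C))` and `ε₀ = min (1/2) (c/(8C))`: `Fr E N log N ≥ (c/4) N log N P`. -/
def StEB : Prop := ∃ η ε₀ c₀ w₀ : ℝ, 0 < η ∧ η ≤ 1 / 20 ∧ 0 < ε₀ ∧ ε₀ ≤ 1 / 2 ∧ 0 < c₀ ∧ 2 ≤ w₀ ∧
  ∀ (E : Finset ℕ) (w : ℝ), (∀ p ∈ E, p.Prime) → w₀ ≤ w → ms E (w ^ η) w ≤ ε₀ →
  ∀ N : ℕ, w ^ (1 / 2 : ℝ) ≤ N → (N : ℝ) ≤ w → c₀ * N * PE E N ≤ Fr E N

/-- ER (hM2 : Pool.Agent.Helper60.GP.StM2). From the scale `w` to larger numbers.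

Proof. Let `𝒬` = the primes `q ∉ E` with `w^η < q ≤ w^(2/5)`. By `hM2` (`a = η`, `b = 2/5`, `ε = 1/2`) the sum of `1/q` over all primes `w^η ≤ q < w^(2/5)` is
`≥ log (2/(5η)) - 1/2 ≥ log 8 - 1/2 ≥ 3/2`, the term `q = w^η` is `≤ 1/4`, and the part in `E` is `≤ 1/2`: `∑_𝒬 1/q ≥ 1/2`. Claim_j:
`c_j N PE E N ≤ Fr E N` for `w^(1/2) ≤ N ≤ w^(1+jη/2)`, `c_0 = c₀`, `c_(j+1) = c_j η/(8A)` (`≤ c_j`).
Step: `w^(1+jη/2) < N ≤ w^(1+(j+1)η/2)`, `N ≤ w^A`, `q ∈ 𝒬`: the natural number `N / q` is `≥ w^(3/5) - 1 ≥ w^(1/2)` and `≤ w^(1+jη/2)`, and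
`N / q ≥ (N : ℝ)/(2q)`. Every `n ≤ N` has at most `log N / (η log w) ≤ A/η` prime factors in `𝒬`, and `n = q m` with `m` free of
`E`, `q ∈ 𝒬` is free of `E`. So `(A/η) Fr E N ≥ ∑_𝒬 Fr E (N/q) ≥ ∑_𝒬 c_j (N/(2q)) PE E (N/q) ≥ (c_j/4) N PE E N` (`PE E (N/q) ≥ PE E N`). After
`⌈2A/η⌉` steps all `N ≤ w^A` are reached. -/
def StER : Prop := ∀ η A c₀ : ℝ, 0 < η → η ≤ 1 / 20 → 1 ≤ A → 0 < c₀ → ∃ c w₀ : ℝ, 0 < c ∧ 2 ≤ w₀ ∧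
  ∀ (E : Finset ℕ) (w : ℝ), (∀ p ∈ E, p.Prime) → w₀ ≤ w → ms E (w ^ η) w ≤ 1 / 2 →
  (∀ N : ℕ, w ^ (1 / 2 : ℝ) ≤ N → (N : ℝ) ≤ w → c₀ * N * PE E N ≤ Fr E N) →
  ∀ N : ℕ, w ^ (1 / 2 : ℝ) ≤ N → (N : ℝ) ≤ w ^ A → c * N * PE E N ≤ Fr E N

/-- EF (hEB)(hER). One thin scale.

Proof. EB at the scale `w ≥ N^τ`, then ER with `A = 1/τ` (`N ≤ w^(1/τ)`). `N ≥ N₀` makes `w` large. -/
def StEF : Prop := ∃ η ε₀ : ℝ, 0 < η ∧ η ≤ 1 / 20 ∧ 0 < ε₀ ∧ ∀ τ : ℝ, 0 < τ → τ ≤ 1 →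
  ∃ c N₀ : ℝ, 0 < c ∧ 2 ≤ N₀ ∧ ∀ (E : Finset ℕ) (N : ℕ) (w : ℝ), (∀ p ∈ E, p.Prime) → N₀ ≤ N →
  (N : ℝ) ^ τ ≤ w → w ≤ N → ms E (w ^ η) w ≤ ε₀ → c * N * PE E N ≤ Fr E N

/-- EK (hEF). Bounded mass: positive density (a lower bound in Hildebrand's problem, without his constant).

Proof. Let `I = ⌈K/ε₀⌉ + 1`; the windows `(N^(η^(i+1)), N^(η^i)]`, `i < I`, are disjoint, so one of them has mass `≤ ε₀`;
EF with `w = N^(η^i)`, `τ = η^I`. `PE E N ≥ exp (-2 ∑ 1/p) ≥ exp (-2K)` (`1 - t ≥ exp (-2t)` for `0 ≤ t ≤ 1/2`). For `1 ≤ N < N₀` use `Fr E N ≥ 1`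
(`n = 1`). -/
def StEK : Prop := ∀ K : ℝ, ∃ c : ℝ, 0 < c ∧ ∀ (E : Finset ℕ) (N : ℕ), (∀ p ∈ E, p.Prime) → 1 ≤ N →
  ms E 0 N ≤ K → c * N ≤ Fr E N

/-! ### Upper bound sieve -/

open Classical in
/-- UB (no hypotheses). One class for every prime `5 ≤ s ≤ w`, inside an arithmetic progression.

Proof. `Pool.Agent.Helper18.TR.fl 1 1` with `Q = Pool.Agent.Helper13.JC.Sw w`, `g s = 1/s`, `A = range N`, events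
`s ∣ b + h p - e s`. For `T ⊆ Q` the number of `h < N` with all events of `T` is `N / ∏ T + O(1)` (`Pool.Agent.Helper13.JC.card_res`
or `crt` and `card_class`), `R = 1`. Then `Pool.Agent.Helper13.JC.prod_Sw` and, for the error `w^B'` against `N / log (w+1)`, take
`B = B' + 2`. For `w = 1` trivial with `C ≥ 1`. Compare `Pool.Agent.Helper13.JC.upper` (`Pool/Agent/Helper13/JC/UB.lean`). -/
def StUB : Prop := ∃ (B : ℕ) (C : ℝ), 1 ≤ B ∧ 1 ≤ C ∧ ∀ w N p : ℕ, 1 ≤ w → w ^ B ≤ N →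
  (∀ s : ℕ, s.Prime → s ≤ w → ¬ s ∣ p) → ∀ (b : ℤ) (e : ℕ → ℤ),
  (((range N).filter fun h : ℕ => ∀ s : ℕ, s.Prime → 5 ≤ s → s ≤ w →
    ¬ (s : ℤ) ∣ b + h * p - e s).card : ℝ) ≤ C * N / Real.log (w + 1)

/-! ### A bilinear Bombieri-Vinogradov theorem -/

/-- product of the two character sums, with the variables coprime to `k` -/
def Gk (ω : ℝ → ℝ) (V : ℝ) (M : ℕ) (α : ℕ → ℝ) (k : ℕ) (f : ℕ → ℂ) : ℝ :=
  ‖∑ m ∈ (Icc 1 M).filter (fun m => Nat.Coprime m k), (α m : ℂ) * f m‖ *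
  ‖∑ n ∈ (II V).filter (fun n => Nat.Coprime n k), ((Λ n * ω (Real.log (n / V)) : ℝ) : ℂ) * f n‖

open Classical in
/-- the error for the modulus `q` -/
def Er (ω : ℝ → ℝ) (V : ℝ) (M : ℕ) (α : ℕ → ℝ) (q : ℕ) (b : ℤ) : ℝ :=
  |(∑ m ∈ Icc 1 M, ∑ n ∈ (II V).filter (fun n : ℕ => (q : ℤ) ∣ ((m * n : ℕ) : ℤ) - b),
      α m * (Λ n * ω (Real.log (n / V)))) -
    Th ω V / (Nat.totient q : ℝ) * ∑ m ∈ (Icc 1 M).filter (fun m => Nat.Coprime m q), α m|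

/-- B1 (no hypotheses). Characters.

Proof. Since `(b, q) = 1`, only `m`, `n` coprime to `q` occur, and for them `[q ∣ mn - b] = (1/φ(q)) ∑_χ χ̄(b) χ(m) χ(n)` (orthogonality; compare
`Pool/Agent/Helper15/AB/M_OR.lean`). For `χ ≠ 1` and `m` coprime to `q`, `χ(m) = χ.primitiveCharacter m` (as complex numbers of the natural number `m`;
see `Pool/Agent/Helper15/AB/M_NP.lean`), so the characters `χ ≠ 1` contribute at most `(1/φ(q)) SN (Gk ω V M α q) q`. The principal character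
contributes `(1/φ(q)) ∑_((m,q)=1) α m · ∑_((n,q)=1) Λ(n) ω(..)`, and `Th ω V - ∑_((n,q)=1) Λ(n) ω(..) ≤ ∑_(p ∣ q) ∑_(p^i ≤ 3V) log p ≤
ω(q) log (3V) ≤ C log V log (2q)` (number of prime factors `≤ log q / log 2`; `0 ≤ ω ≤ 1`). -/
def StB1 : Prop := ∀ ω : ℝ → ℝ, IsW ω → ∃ C : ℝ, 0 < C ∧ ∀ (V : ℝ) (M q : ℕ) (α : ℕ → ℝ) (b : ℤ),
  3 ≤ V → 1 ≤ q → (∀ m, |α m| ≤ 1) → IsCoprime b (q : ℤ) →
  Er ω V M α q b ≤ 1 / (Nat.totient q : ℝ) *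
    (SN (Gk ω V M α q) q + C * M * Real.log V * Real.log (2 * q))

/-- B2 (no hypotheses). Regrouping by conductors.

Proof. `Pool.Agent.Helper15.AB.RG.SN_le` for each `q` and `F = G q`: `SN (G q) q ≤ ∑_(r ∈ Ioc 1 D, r ∣ q) SP (G q) r`. For `q = r k` and a primitive
`ψ` mod `r`, `f = ψ` vanishes at the `n` not coprime to `r`, so `G q f = G k f` and `SP (G q) r = SP (G k) r`. With
`φ(r k) ≥ φ(r) φ(k)` (`Nat.totient_super_multiplicative`) exchange the sums, `(q, r) ↦ (k = q/r, r)` is injective. -/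
def StB2 : Prop := ∀ (G : ℕ → (ℕ → ℂ) → ℝ) (D : ℕ), (∀ k f, 0 ≤ G k f) →
  (∀ (r k : ℕ) (f : ℕ → ℂ), (∀ n, ¬ Nat.Coprime n r → f n = 0) → G (r * k) f = G k f) →
  ∑ q ∈ Icc 1 D, 1 / (Nat.totient q : ℝ) * SN (G q) q ≤
    ∑ k ∈ Icc 1 D, 1 / (Nat.totient k : ℝ) *
      ∑ r ∈ Ioc 1 D, 1 / (Nat.totient r : ℝ) * SP (G k) r

/-- B3 (hML : Pool.Agent.Helper15.AB.StML). Large conductors.

Proof. Dyadic blocks `(R', 2R']`, `R' = 2^i R ≤ D` (cut at `D`). In a block `1/φ(r) ≤ (1/R') r/φ(r)`; Cauchy-Schwarz (over `r` and the primitive characters) and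
ML with `Q = 2R'`, applied to `a m = α m [(m,k)=1]` on `Ioc 0 M` (`∑|a|² ≤ M`) and `a n = Λ(n) ω(..) [(n,k)=1]` on `Ioc 0 ⌊3V⌋`
(`∑ |a|² ≤ log (3V) ψ(3V) ≤ C V log V`), give
`(1/R') (C (M + 4R'²) M)^(1/2) (C (3V + 4R'²) V log V)^(1/2) ≤ (C'/R') log V √(MV) (√M + 2R')(√(3V) + 2R')
≤ C'' log V √(MV) (√(MV)/R' + √M + √V + R')`. Sum over the at most `1 + log D / log 2` blocks (geometric sums for the first and the last term;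
compare `Pool/Agent/Helper15/AB/M_BL.lean`, `M_T2.lean`). -/
def StB3 : Prop := ∀ ω : ℝ → ℝ, IsW ω → ∃ C : ℝ, 0 < C ∧ ∀ (V : ℝ) (M R D k : ℕ) (α : ℕ → ℝ),
  3 ≤ V → 1 ≤ M → 1 ≤ R → R ≤ D → (∀ m, |α m| ≤ 1) →
  ∑ r ∈ Ioc R D, 1 / (Nat.totient r : ℝ) * SP (Gk ω V M α k) r ≤
    C * Real.log V * √(M * V) * (√(M * V) / R + (1 + Real.log D) * (√M + √V) + D)

/-- B4 (hSC : Pool.Agent.Helper60.GP.StSCc). Small conductors.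

Proof. `SP (Gk ..) r` is a sum over the primitive characters `ψ` modulo `r` (at most `φ(r)`), all `≠ 1` as `r > 1` (the principal character modulo `r > 1` has conductor
`1`). The first factor of `Gk` is at most `M`. The second: `TT ω V ψ` (`hSC`, `r ≤ (log V)^B`, gives `≤ V/(log V)^A`) minus the sum over the `n` not coprime to
`k`, at most `∑_(p ∣ k) ∑_(p^i ≤ 3V) log p ≤ C log V log (2k)`. -/
def StB4 : Prop := ∀ ω : ℝ → ℝ, IsW ω → ∃ C : ℝ, 0 < C ∧ ∀ A B : ℕ, ∃ V₀ : ℝ, 3 ≤ V₀ ∧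
  ∀ (V : ℝ) (M R k : ℕ) (α : ℕ → ℝ), V₀ ≤ V → 1 ≤ k → (R : ℝ) ≤ Real.log V ^ B →
  (∀ m, |α m| ≤ 1) →
  ∑ r ∈ Ioc 1 R, 1 / (Nat.totient r : ℝ) * SP (Gk ω V M α k) r ≤
    R * M * (V / Real.log V ^ A + C * Real.log V * Real.log (2 * k))

/-- BB (hB1)(hB2)(hB3)(hB4)(hPH : Pool.Agent.Helper15.AB.StPH). Bilinear Bombieri-Vinogradov.

Proof. `M = ⌊X/V⌋`, `M V ≤ X`, `D = ⌊X^θ⌋`, `R = ⌊(log V)^B⌋`, `B = A + 4`. B1 and B2 (for `G k = Gk ω V M α k`; the second condition of B2: `m` is coprime to `r k` iff it is to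
`r` and `k`, and the terms with `(m, r) > 1` vanish) give at most
`∑_(k≤D) (1/φ(k)) [∑_(1<r≤R) + ∑_(R<r≤D)] + C M log V ∑_(q≤D) log (2q)/φ(q)`. PH with `r = 1`: `∑_(k≤D) 1/φ(k) ≤ C (1 + log D)`. Last term:
`≤ C' (X/V) (log X)^3 ≤ X^(1-κ₁/2)`. Large `r` (B3): `C log X · √X (√X·2/(log V)^B + (1+log D)·2·X^((1-κ₁)/2)·.. + X^θ)`, where `√M, √V ≤ X^((1-κ₁)/2)`.
Small `r` (B4 with `A' = A + 2B + 4` and `B`): `R M (V/(log V)^A' + C log V log (2D)) ≤ X/(log V)^(A+B+4) + X^(1-κ₁/2)`. `log V ≥ κ₁ log X`, so all the constants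
`κ₁^(-j)` are absorbed by one power of `log X`. (If `R ≥ D` the second sum is empty.) -/
def StBB : Prop := ∀ ω : ℝ → ℝ, IsW ω → ∀ (A : ℕ) (κ₁ θ : ℝ), 0 < κ₁ → θ < 1 / 2 → ∃ X₀ : ℝ,
  2 ≤ X₀ ∧ ∀ (X V : ℝ) (α : ℕ → ℝ) (b : ℕ → ℤ), X₀ ≤ X → X ^ κ₁ ≤ V → V ≤ X ^ (1 - κ₁) →
  (∀ m, |α m| ≤ 1) → (∀ q : ℕ, 1 ≤ q → IsCoprime (b q) (q : ℤ)) →
  ∑ q ∈ Icc 1 ⌊X ^ θ⌋₊, Er ω V ⌊X / V⌋₊ α q (b q) ≤ X / Real.log X ^ A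

open Classical in
/-- SL (hBB)(hTH : Pool.Agent.Helper15.AB.StTH). Lower bound sieve for the bilinear sums.

Proof. Adaptation of `Pool.Agent.Helper13.JC.sieve_lower` (`Pool/Agent/Helper13/JC/LB.lean`), with `F = fam0 w b Q ∪ fam1 w b Q`, `w = ⌊X^κ⌋`, `κ = 1/(4(B+1))`, and the
same bounded set of moduli `d = ∏ T ≤ X^(1/4)`; `exists_b` gives the classes `β d`. For `T ∈ F` let `A T` be the sum of `α m Λ(n) ω(..)` over the `(m, n)` with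
`s ∣ mn - e s` for all `s ∈ T`. Then `∑_T (-1)^|T| A T ≤` the right side (bonf, weights `≥ 0`), and by BB (`A = 2`, `θ = 1/4`)
`∑_T |A T - Th ω V/φ(d) ∑_((m,d)=1) α m| ≤ X/(log X)²`. Main term: exchange the sums: `Th ω V ∑_m α m ∑_(T ∈ F) (-1)^|T| ∏_(s∈T) g_m(s)` with
`g_m(s) = 0` if `s ∣ m` and `1/(s-1)` otherwise; `flMain 2 (1/2)` for `g_m`: `≥ (1/2) ∏_Q (1 - g_m(s)) ≥ (1/2) ∏_Q (1 - 1/(s-1))`. Finally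
`Th ω V ≥ c V` (TH; `V` large as `V ≥ X^κ₁`). -/
def StSL : Prop := ∀ ω : ℝ → ℝ, IsW ω → ∃ κ c : ℝ, 0 < κ ∧ κ ≤ 1 / 4 ∧ 0 < c ∧ ∀ κ₁ : ℝ, 0 < κ₁ →
  ∃ X₀ : ℝ, 2 ≤ X₀ ∧ ∀ (X V : ℝ) (Q : Finset ℕ) (e : ℕ → ℤ) (α : ℕ → ℝ), X₀ ≤ X → X ^ κ₁ ≤ V →
  V ≤ X ^ (1 - κ₁) → (∀ s ∈ Q, s.Prime ∧ 3 ≤ s ∧ (s : ℝ) ≤ X ^ κ) → (∀ s ∈ Q, ¬ (s : ℤ) ∣ e s) →
  (∀ m, 0 ≤ α m ∧ α m ≤ 1) →
  c * V * (∏ s ∈ Q, (1 - 1 / ((s : ℝ) - 1))) * (∑ m ∈ Icc 1 ⌊X / V⌋₊, α m) -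
      X / Real.log X ^ 2 ≤
    ∑ m ∈ Icc 1 ⌊X / V⌋₊,
      ∑ n ∈ (II V).filter (fun n : ℕ => ∀ s ∈ Q, ¬ (s : ℤ) ∣ ((m * n : ℕ) : ℤ) - e s),
        α m * (Λ n * ω (Real.log (n / V)))

/-! ### Survivors, centre `0` -/

open Classical in
/-- the ON primes: `p ≤ x`, `p ∣ a p` -/
def On (x : ℕ) (a : ℕ → ℤ) : Finset ℕ := (Icc 1 x).filter (fun p : ℕ => p.Prime ∧ (p : ℤ) ∣ a p)

open Classical in
/-- the small odd OFF primes: `3 ≤ s ≤ x ^ κ`, `s ∤ a s` -/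
def Qs (x : ℕ) (κ : ℝ) (a : ℕ → ℤ) : Finset ℕ :=
  (Icc 3 x).filter (fun s : ℕ => s.Prime ∧ (s : ℝ) ≤ (x : ℝ) ^ κ ∧ ¬ (s : ℤ) ∣ a s)

open Classical in
/-- indicator function of the `m` free of ON primes, and even if `2` is OFF -/
def al (x : ℕ) (a : ℕ → ℤ) (m : ℕ) : ℝ :=
  if (∀ p ∈ On x a, ¬ p ∣ m) ∧ ((2 : ℤ) ∣ a 2 ∨ 2 ∣ m) then 1 else 0

open Classical in
/-- the survivors -/
def Sv (x y : ℕ) (κ : ℝ) (a : ℕ → ℤ) : Finset ℕ := (Icc 1 y).filter (fun N : ℕ =>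
  (∀ p ∈ On x a, ¬ p ∣ N) ∧ (∀ s ∈ Qs x κ a, ¬ (s : ℤ) ∣ (N : ℤ) - a s) ∧
    ((2 : ℤ) ∣ a 2 ∨ 2 ∣ N))

/-- the density hypothesis -/
def Dens (x : ℕ) (a : ℕ → ℤ) (c₁ : ℝ) : Prop := ∀ N : ℕ, (x : ℝ) ^ (1 / 4 : ℝ) ≤ N →
  (N : ℝ) ≤ (x : ℝ) ^ 2 → c₁ * N * PE (On x a) N ≤ Fr (On x a) N

/-- VA (hSL)(hMP). Lower bound for one `V`.

Proof. SL with `X = y/3` (so `⌊X/V⌋ = ⌊y/(3V)⌋ =: M`), `Q = Qs x κ' a` with `κ' = κ/2` (`x^(κ/2) ≤ (y/3)^κ` for `x` large; the `κ` of this module is half the one of SL),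
`e = a`, `α = al x a`, `κ₁` replaced by `κ₁/3` (`(y/3)^(κ₁/3) ≤ x^(2κ₁/3) ≤ V`, and `V ≤ x^(1/2) ≤ (y/3)^(1-κ₁/3)` as `κ₁ ≤ 1/2`). `M ≥ x^(1/2)/3 - 1`. If `2 ∣ a 2`
(then `2 ∈ On`): `∑_(m≤M) al = Fr (On x a) M ≥ c₁ M PE (On) M`. Otherwise `2 ∉ On` and `∑ al = #{m' ≤ M/2 free} = Fr (On x a) (M/2) ≥ c₁ (M/2) PE (On) (M/2)`,
`M/2 ≥ M/3`, `M/2 ≥ x^(1/4)`. `PE (On) (..) ≥ PE (On) x = ∏_(p∈On) (1-1/p)`. `∏_Q (1 - 1/(s-1)) ≥ exp (-∑_Q 1/s - 5)` (`Pool.Agent.Helper13.JC.prod_ge`),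
`PE (On) x ≥ exp (-∑_On 1/p - 1)`, and `Q`, `On` are disjoint sets of primes `≤ x`, so with `mert` the product is `≥ c'/log x`. So the left side of SL is
`≥ c c₁ c'' V M/log x - X/(log X)² ≥ c''' y/log x`, `V M ≥ y/3 - V`. -/
def StVA : Prop := ∀ ω : ℝ → ℝ, IsW ω → ∃ κ : ℝ, 0 < κ ∧ κ ≤ 1 / 4 ∧ ∀ c₁ : ℝ, 0 < c₁ →
  ∃ c : ℝ, 0 < c ∧ ∀ κ₁ : ℝ, 0 < κ₁ → κ₁ ≤ 1 / 2 → ∃ x₀ : ℝ, 2 ≤ x₀ ∧ ∀ (x y : ℕ) (a : ℕ → ℤ) (V : ℝ),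
  x₀ ≤ x → x ≤ y → y ≤ x ^ 2 → (x : ℝ) ^ κ₁ ≤ V → V ≤ (x : ℝ) ^ (1 / 2 : ℝ) → Dens x a c₁ →
  c * y / Real.log x ≤ ∑ m ∈ Icc 1 ⌊(y : ℝ) / (3 * V)⌋₊,
      ∑ n ∈ (II V).filter (fun n : ℕ => ∀ s ∈ Qs x κ a, ¬ (s : ℤ) ∣ ((m * n : ℕ) : ℤ) - a s),
        al x a m * (Λ n * ω (Real.log (n / V)))

/-- VB (hUB). Upper bound for the part with an ON prime `n`, one `V`.

Proof. `0 ≤ ω ≤ 1` and `ω(log (n/V)) = 0` unless `V ≤ n ≤ 3V`; `Λ(n) ≠ 0` only for prime powers `n = p^i`, `p = n.minFac ∈ On`.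
`i ≥ 2`: the sum of `Λ(n)` over these `n ≤ 3V` is at most `√(3V) · (log (3V))² · 2` (at most `√(3V)` primes `p`, at most `log (3V)/log 2` exponents), times `M = ⌊y/(3V)⌋`: at most
`y V^(-1/2) (log 3V)² ≤ y x^(-κ₁/4)`.
`i = 1`, `p ∈ On`, `V ≤ p ≤ 3V`: `log p ≤ 2 log V`. The `m ≤ M` with `al x a m = 1` and `s ∤ mp - a s` for all `s ∈ Qs` lie in `range (M+1)` and avoid one class `e s` modulo
every prime `5 ≤ s ≤ w := ⌊x^κ₂⌋`, `κ₂ = min κ (1/(8B))`: `e s = 0` if `s ∈ On` (this includes `s = p`), and `e s = a s p⁻¹` modulo `s` if `s ∈ Qs` (then `s ≠ p`, so `p` is invertible).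
UB (with `p = 1`, `b = 0`): `≤ C (M+1)/log (w+1) ≤ C' M/log x` (`M ≥ x^(1/2)/4 ≥ w^B`). So this part is at most
`∑_(p∈On, V≤p≤3V) 2 log V · C' (y/(3V))/log x ≤ C'' (y/log x) log V ∑_(p∈On, V/2<p≤3V) 1/p` (`1/V ≤ 3/p`). -/
def StVB : Prop := ∀ ω : ℝ → ℝ, IsW ω → ∀ κ : ℝ, 0 < κ → κ ≤ 1 / 4 → ∃ C : ℝ, 0 < C ∧
  ∀ κ₁ : ℝ, 0 < κ₁ → ∃ x₀ : ℝ, 2 ≤ x₀ ∧ ∀ (x y : ℕ) (a : ℕ → ℤ) (V : ℝ),
  x₀ ≤ x → x ≤ y → y ≤ x ^ 2 → (x : ℝ) ^ κ₁ ≤ V → V ≤ (x : ℝ) ^ (1 / 2 : ℝ) →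
  ∑ m ∈ Icc 1 ⌊(y : ℝ) / (3 * V)⌋₊,
      ∑ n ∈ (II V).filter (fun n : ℕ => (∀ s ∈ Qs x κ a, ¬ (s : ℤ) ∣ ((m * n : ℕ) : ℤ) - a s) ∧
        n.minFac ∈ On x a), al x a m * (Λ n * ω (Real.log (n / V))) ≤
    C * (y / Real.log x) * (Real.log V * ms (On x a) (V / 2) (3 * V)) +
      y * (x : ℝ) ^ (-(κ₁ / 4))

/-- VW (no hypotheses). The weighted count of representations.

Proof. The terms with `Λ n = 0` or `al x a m = 0` vanish. For the others `n = p^i`, `p = n.minFac ∉ On x a`, and `N = m n` is in `Sv x y κ a`: `1 ≤ N ≤ y` (`n ≤ 3V`, `m ≤ y/(3V)`, `V = e^j`); a prime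
`p' ∈ On` with `p' ∣ N` would divide `m` (excluded by `al`) or be `p`; the condition modulo `s ∈ Qs` is in the filter; if `2 ∤ a 2` then `2 ∣ m ∣ N`. For fixed `j` the map `(m, n) ↦ (m n, n)` is
injective. So the left side is at most `∑_(N ∈ Sv) ∑_(n ∣ N) Λ(n) ∑_(j ∈ J) ω(log n - j)`; at most two `j` have `0 ≤ log n - j ≤ 1` and `ω ≤ 1`, so the inner sum is `≤ 2`, and
`∑_(n ∣ N) Λ(n) = log N ≤ log y` (`vonMangoldt_sum`). -/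
def StVW : Prop := ∀ ω : ℝ → ℝ, IsW ω → ∀ (x y : ℕ) (κ : ℝ) (a : ℕ → ℤ) (J : Finset ℕ), 1 ≤ y →
  ∑ j ∈ J, ∑ m ∈ Icc 1 ⌊(y : ℝ) / (3 * Real.exp j)⌋₊,
      ∑ n ∈ (II (Real.exp j)).filter (fun n : ℕ =>
        (∀ s ∈ Qs x κ a, ¬ (s : ℤ) ∣ ((m * n : ℕ) : ℤ) - a s) ∧ ¬ n.minFac ∈ On x a),
        al x a m * (Λ n * ω (Real.log (n / Real.exp j))) ≤
    2 * Real.log y * (Sv x y κ a).card

/-- VC (hVA)(hVB)(hVW)(hWE : Pool.Agent.Helper15.AB.StWE). The number of survivors.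

Proof. Fix `ω` with `IsW ω`, `κ` from VA, and for `c₁` the `c` of VA, `C` of VB, `ε = c/(64 C)`. Let `V_j = e^j`, `j ∈ J` = the natural numbers with `2u ≤ e^j`, `3e^j ≤ u²`; `(log u)/2 ≤ #J ≤ 2 log u` for large
`u`; `x^κ₁ ≤ V_j ≤ x^(1/2)`. For every `j ∈ J`: VA minus VB: the sum `G_j` over the `(m, n)` with `n.minFac ∉ On` is `≥ c y/log x - C (y/log x) (2 log u) ms (V_j/2) (3V_j) - y x^(-κ₁/4)`. Every `p` is in at most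
two of the windows `(V_j/2, 3V_j] ⊆ (u, u²]` (`log 6 < 2`), so `∑_j ms ≤ 2ε`, and
`∑_j G_j ≥ (y/log x)(c (log u)/2 - 4 C ε log u) - (2 log u) y x^(-κ₁/4) ≥ (c/4)(log u) y/log x`. VW: `∑_j G_j ≤ 2 log y · #Sv ≤ 4 log x · #Sv`, and `log u ≥ κ₁ log x`. -/
def StVC : Prop := ∃ κ : ℝ, 0 < κ ∧ κ ≤ 1 / 4 ∧ ∀ c₁ : ℝ, 0 < c₁ → ∃ ε : ℝ, 0 < ε ∧
  ∀ κ₁ : ℝ, 0 < κ₁ → κ₁ ≤ 1 / 4 → ∃ c x₀ : ℝ, 0 < c ∧ 2 ≤ x₀ ∧ ∀ (x y : ℕ) (a : ℕ → ℤ) (u : ℝ),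
  x₀ ≤ x → x ≤ y → y ≤ x ^ 2 → (x : ℝ) ^ κ₁ ≤ u → u ≤ (x : ℝ) ^ (1 / 4 : ℝ) → Dens x a c₁ →
  ms (On x a) u (u ^ 2) ≤ ε → c * y / Real.log x ≤ (Sv x y κ a).card

/-- CO (hVC)(hUB). The main inequality, centre `0`.

Proof. Let `H = y/x`. If `log H ≤ C` nothing is to prove, so let `H` be large. By VC `c y/log x ≤ #Sv`. Every `N ∈ Sv` is covered: `N ≡ a p`, `p ≤ x` prime. `p ∣ a p` is
impossible (`p ∈ On`, `p ∤ N`). So `p` is OFF, and `p ≤ x^κ` is impossible (`p ≥ 3`: `p ∈ Qs`; `p = 2` OFF: `N` is even, `a 2` is odd). So `p ∈ E1 x (x^κ) a`. For such `p` the `N ∈ Sv`, `N ≡ a p (mod p)`, are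
`N = b + h p`, `0 ≤ b < p`, `h < N_p := ⌊y/p⌋ + 1`, and avoid one class modulo every prime `5 ≤ s ≤ w := ⌊H^(κ/B)⌋`: `0` if `s ∈ On`, `a s` if `s ∈ Qs` (`H ≤ x`, so `s ≤ x^κ < p`: `s ∤ p`); `w^B ≤ H^κ ≤ H ≤ N_p`. UB:
their number is `≤ C N_p/log (w+1) ≤ C' (y/p)/log H` (`N_p ≤ 2y/p`). Sum: `c y/log x ≤ (C' y/log H) ∑ 1/p`. -/
def StCO : Prop := ∃ κ : ℝ, 0 < κ ∧ κ ≤ 1 / 4 ∧ ∀ c₁ : ℝ, 0 < c₁ → ∃ ε : ℝ, 0 < ε ∧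
  ∀ κ₁ : ℝ, 0 < κ₁ → κ₁ ≤ 1 / 4 → ∃ C x₀ : ℝ, 0 < C ∧ 2 ≤ x₀ ∧ ∀ (x y : ℕ) (a : ℕ → ℤ) (u : ℝ),
  x₀ ≤ x → x ≤ y → y ≤ x ^ 2 → Cov x y a → (x : ℝ) ^ κ₁ ≤ u → u ≤ (x : ℝ) ^ (1 / 4 : ℝ) →
  Dens x a c₁ → ms (On x a) u (u ^ 2) ≤ ε →
  Real.log ((y : ℝ) / x) ≤ C * (1 + (∑ p ∈ E1 x ((x : ℝ) ^ κ) a, 1 / (p : ℝ)) * Real.log x)

/-! ### General centre -/

open Classical in
/-- the sum of `1 / p` over the primes `u < p ≤ v` with `a p ≡ b (mod p)` -/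
def onSum (a : ℕ → ℤ) (b : ℤ) (u v : ℝ) : ℝ :=
  ∑ p ∈ (Icc 1 ⌊v⌋₊).filter (fun p : ℕ => p.Prime ∧ u < (p : ℝ) ∧ a p ≡ b [ZMOD (p : ℤ)]),
    1 / (p : ℝ)

/-- the main inequality for the general centre, with a fixed `κ` -/
def CGk (κ : ℝ) : Prop := ∀ c₁ : ℝ, 0 < c₁ → ∃ ε : ℝ, 0 < ε ∧
  ∀ κ₁ : ℝ, 0 < κ₁ → κ₁ ≤ 1 / 4 → ∃ C x₀ : ℝ, 0 < C ∧ 2 ≤ x₀ ∧ ∀ (x y : ℕ) (a : ℕ → ℤ) (b : ℕ) (u : ℝ),
  x₀ ≤ x → Cov x y a → b ≤ y → (x : ℝ) ^ κ₁ ≤ u → u ≤ (x : ℝ) ^ (1 / 4 : ℝ) →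
  Dens x (fun p => a p - b) c₁ → ms (On x (fun p => a p - b)) u (u ^ 2) ≤ ε →
  (y : ℝ) ≤ x * Real.exp (C * (1 + offSum a b ((x : ℝ) ^ κ) x * Real.log x))

/-- the statement of `Pool.Agent.Helper13.JC.poly` -/
def StPoly : Prop := ∃ A x₀ : ℝ, 2 ≤ A ∧ 2 ≤ x₀ ∧ ∀ x y : ℕ, x₀ ≤ x → ∀ a : ℕ → ℤ, Cov x y a →
  (y : ℝ) ≤ (x : ℝ) ^ A

/-- CG (hCO)(hPoly : StPoly). General centre, all lengths.

Proof. Write `a₀ = fun p => a p - b`. If `y ≤ 64 x` trivial for `C ≥ log 64`. If `64 x < y ≤ x²`: `Pool.Agent.Helper13.JC.shift` gives `y'`, `a'` with `p ∣ a' p ↔ a p ≡ b`, so `On x a' = On x a₀` and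
`Dens`, `ms` are the same, `∑_(E1 x (x^κ) a') 1/p = offSum a b (x^κ) x` (`JC.sum_E1`); CO for `y' ≥ (y-1)/2 ≥ x`, and `y ≤ 3y'`. If `y > x²`: put `N = x²`, `k = min b (y - N)`, `a'' p = a p - k`, `b'' = b - k ≤ N`
(as in `JC.cut`): a covering of `[1, N]` with `a'' p - b'' = a p - b`; the previous case (all quantities are unchanged) gives `log x ≤ C' (1 + S log x)`, so `S ≥ 1/(2C')` once `log x ≥ 2C'`, and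
`y ≤ x^A = x exp ((A-1) log x) ≤ x exp (2C'(A-1) S log x)`. -/
def StCG : Prop := ∃ κ : ℝ, 0 < κ ∧ κ ≤ 1 / 4 ∧ CGk κ

/-- first form of the theorem -/
def Fo1 (κ : ℝ) : Prop := ∀ K : ℝ, ∃ C x₀ : ℝ, 0 < C ∧ ∀ (x y : ℕ) (a : ℕ → ℤ) (b : ℕ),
  x₀ ≤ x → Cov x y a → b ≤ y → onSum a b 0 ((x : ℝ) ^ κ) ≤ K →
    (y : ℝ) ≤ x * Real.exp (C * (1 + offSum a b ((x : ℝ) ^ κ) x * Real.log x))

/-- second form of the theorem -/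
def Fo2 (κ η : ℝ) : Prop := ∀ κ' : ℝ, 0 < κ' → ∃ ε C x₀ : ℝ, 0 < ε ∧ 0 < C ∧
  ∀ (x y : ℕ) (a : ℕ → ℤ) (b : ℕ) (w : ℝ), x₀ ≤ x → Cov x y a → b ≤ y → (x : ℝ) ^ κ' ≤ w →
    w ≤ (x : ℝ) ^ κ → onSum a b (w ^ η) w ≤ ε →
    (y : ℝ) ≤ x * Real.exp (C * (1 + offSum a b ((x : ℝ) ^ κ) x * Real.log x))

/-- FK (hEK). The first form.

Proof. `E = On x (a - b)` (`p ∣ a p - b ↔ a p ≡ b`). Mass of `E` up to `x^κ` at most `K`, mass of the primes in `(x^κ, x]` at most `C'(κ)` (`Pool.Agent.Helper13.JC.mert`; `E` has no primes `> x`), so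
`ms E 0 N ≤ K' := K + C'` for every `N`; EK gives `Dens x (a - b) c₁` with `c₁ = c(K')` (`PE ≤ 1`). Let `ε` be from `CGk` for this `c₁`, `I = ⌈K/ε⌉ + 1`, and the windows `(u_i, u_i²]`, `u_i = x^(κ/2^(i+1))`, `i < I`:
they are disjoint and contained in `(0, x^κ]`, so one has mass `≤ ε`; `κ₁ = κ/2^(I+1)`. Apply `CGk κ`. -/
def StFK : Prop := ∀ κ : ℝ, 0 < κ → κ ≤ 1 / 4 → CGk κ → Fo1 κ

/-- FS (hEF). The second form.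

Proof. `η`, `ε₀` from EF. Given `κ' > 0`: if `κ' > κ` there is no `w` for `x > 1`; let `κ' ≤ κ`. `c₁ = c(κ'/2)` from EF with `τ = κ'/2`: for `x^(1/4) ≤ N ≤ x²` one has `N^τ ≤ x^κ' ≤ w ≤ x^κ ≤ x^(1/4) ≤ N`,
so `Dens x (a - b) c₁` holds if `ms E (w^η) w ≤ ε₀`, `E = On x (a - b)`, and `ms E (w^η) w = onSum a b (w^η) w` as `w ≤ x`. `ε = min ε₀ (the ε of CGk for c₁)`, `u = w^η`, `u² ≤ w` (`η ≤ 1/20`), `κ₁ = η κ'`, `x^κ₁ ≤ u ≤ w ≤ x^(1/4)`. -/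
def StFS : Prop := ∃ η : ℝ, 0 < η ∧ η < 1 ∧ ∀ κ : ℝ, 0 < κ → κ ≤ 1 / 4 → CGk κ → Fo2 κ η

end Pool.Agent.Helper13.JS
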