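import Pool.Agent.Helper13.JS.St
import Pool.Agent.Helper40.JS.M_MP
import Pool.Agent.Helper82.JS.M_EL
import Pool.Agent.Helper82.JS.M_ELU
import Pool.Agent.Helper79.JS.M_EU
import Pool.Agent.Helper19.JS.M_PC
import Pool.Agent.Helper51.JS.M_S2
import Pool.Agent.Helper36.JS.M_EB
import Pool.Agent.Helper4.JS.M_ER
import Pool.Agent.Helper41.JS.M_EF
import Pool.Agent.Helper26.JS.M_EK
import Pool.Agent.Helper15.JS.M_UB
import Pool.Agent.Helper57.JS.M_B1
import Pool.Agent.Helper14.JS.M_B2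
import Pool.Agent.Helper12.JS.M_B3
import Pool.Agent.Helper84.JS.M_B4
import Pool.Agent.Helper80.JS.M_BB
import Pool.Agent.Helper33.JS.M_SL
import Pool.Agent.Helper66.JS.M_VA
import Pool.Agent.Helper72.JS.M_VB
import Pool.Agent.Helper9.JS.M_VW
import Pool.Agent.Helper48.JS.M_VC
import Pool.Agent.Helper3.JS.M_CO
import Pool.Agent.Helper92.JS.M_CG
import Pool.Agent.Helper19.JS.M_FK
import Pool.Agent.Helper98.JS.M_FS
import Pool.Agent.Helper13.JS.FU
import Pool.Agent.Helper60.GP.All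

/-!
# Project JS (MP_924f75_nt): assembly
-/

set_option autoImplicit false

namespace Pool.Agent.Helper13.JS

theorem pMP : StMP := Pool.Agent.Helper40.JS.hMP
theorem pEL : StEL := Pool.Agent.Helper82.JS.hEL
theorem pELU : StELU := Pool.Agent.Helper82.JS.hELU pMP pEL
theorem pEU : StEU := Pool.Agent.Helper79.JS.hEU pMP
theorem pPC : StPC := Pool.Agent.Helper19.JS.hPC pMP
theorem pS2 : StS2 := Pool.Agent.Helper51.JS.hS2 pELU pEU pPC Pool.Agent.Helper60.GP.pM1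
theorem pEB : StEB := Pool.Agent.Helper36.JS.hEB pELU pS2
theorem pER : StER := Pool.Agent.Helper4.JS.hER Pool.Agent.Helper60.GP.pM2
theorem pEF : StEF := Pool.Agent.Helper41.JS.hEF pEB pER
/-- for every `K` there is `c > 0`: for every set `E` of primes with `∑ 1/p ≤ K` at least `c N` of the
integers up to `N` have no divisor in `E` -/
theorem pEK : StEK := Pool.Agent.Helper26.JS.hEK pEF
theorem pUB : StUB := Pool.Agent.Helper15.JS.hUB
theorem pB1 : StB1 := Pool.Agent.Helper57.JS.hB1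
theorem pB2 : StB2 := Pool.Agent.Helper14.JS.hB2
theorem pB3 : StB3 := Pool.Agent.Helper12.JS.hB3 Pool.Agent.Helper15.AB.aML
theorem pB4 : StB4 := Pool.Agent.Helper84.JS.hB4 Pool.Agent.Helper60.GP.pB1
/-- the bilinear Bombieri-Vinogradov theorem -/
theorem pBB : StBB := Pool.Agent.Helper80.JS.hBB pB1 pB2 pB3 pB4 Pool.Agent.Helper15.AB.hPH
theorem pSL : StSL := Pool.Agent.Helper33.JS.hSL pBB Pool.Agent.Helper15.AB.hTH
theorem pVA : StVA := Pool.Agent.Helper66.JS.hVA pSL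
theorem pVB : StVB := Pool.Agent.Helper72.JS.hVB pUB
theorem pVW : StVW := Pool.Agent.Helper9.JS.hVW
theorem pVC : StVC := Pool.Agent.Helper48.JS.hVC pVA pVB pVW Pool.Agent.Helper15.AB.hWE
theorem pCO : StCO := Pool.Agent.Helper3.JS.hCO pVC pUB
theorem pCG : StCG := Pool.Agent.Helper92.JS.hCG pCO
  (Pool.Agent.Helper13.JC.poly Pool.Agent.Helper60.GP.pB3 Pool.Agent.Helper60.GP.pB4
    Pool.Agent.Helper60.GP.pB5)
theorem pFK : StFK := Pool.Agent.Helper19.JS.hFK pEK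
theorem pFS : StFS := Pool.Agent.Helper98.JS.hFS pEF

/-- the theorem -/
theorem fin : ∃ κ η : ℝ, 0 < κ ∧ κ ≤ 1 / 4 ∧ 0 < η ∧ η < 1 ∧ Fo3 κ η := by
  obtain ⟨κ, h0, h4, h⟩ := pCG
  obtain ⟨η, hη, hη1, hf⟩ := hFU pEF
  exact ⟨κ, η, h0, h4, hη, hη1, hf κ h0 h4 h⟩

end Pool.Agent.Helper13.JS
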